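import Pool.Agent.N396.ZK.Stm2

set_option autoImplicit false

/-!
# Project ZK2: elementary symmetric sums tend to Charlier polynomials
-/

namespace Pool.Agent.N49.ZK

open Finset Filter Topology Pool.Agent.N396.ZK

/-! ### elementary symmetric sums -/

section es

variable {β : Type}

/-- the generating polynomial -/
noncomputable def gp (S : Finset β) (w : β → ℝ) : Polynomial ℝ :=
  ∏ y ∈ S, (1 + Polynomial.C (w y) * Polynomial.X)

lemma gp_coeff (S : Finset β) (w : β → ℝ) (j : ℕ) : (gp S w).coeff j = es j S w := by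
  classical
  unfold gp es
  rw [Finset.prod_one_add, Polynomial.finsetSum_coeff]
  have h1 : ∀ t ∈ S.powerset, (∏ i ∈ t, (Polynomial.C (w i) * Polynomial.X)).coeff j =
      if t.card = j then ∏ i ∈ t, w i else 0 := by
    intro t _
    rw [Finset.prod_mul_distrib, Finset.prod_const, ← map_prod, Polynomial.coeff_C_mul_X_pow]
    by_cases h : t.card = j
    · rw [if_pos h, if_pos h.symm]
    · rw [if_neg h, if_neg (fun hh => h hh.symm)]
  rw [Finset.sum_congr rfl h1, ← Finset.sum_filter]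
  congr 1
  ext t
  rw [Finset.mem_filter, Finset.mem_powerset, Finset.mem_powersetCard]

lemma es_union (A B : Finset β) [DecidableEq β] (h : Disjoint A B) (w : β → ℝ) (j : ℕ) :
    es j (A ∪ B) w = ∑ m ∈ antidiagonal j, es m.1 A w * es m.2 B w := by
  rw [← gp_coeff]
  have : gp (A ∪ B) w = gp A w * gp B w := by
    unfold gp
    rw [Finset.prod_union h]
  rw [this, Polynomial.coeff_mul]
  exact Finset.sum_congr rfl fun m _ => by rw [gp_coeff, gp_coeff]

lemma es_const (A : Finset β) (w : β → ℝ) (a : ℝ) (h : ∀ y ∈ A, w y = a) (j : ℕ) :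
    es j A w = (A.card.choose j : ℝ) * a ^ j := by
  unfold es
  have h1 : ∀ Y ∈ A.powersetCard j, ∏ y ∈ Y, w y = a ^ j := by
    intro Y hY
    rw [Finset.mem_powersetCard] at hY
    rw [Finset.prod_congr rfl (fun y hy => h y (hY.1 hy)), Finset.prod_const, hY.2]
  rw [Finset.sum_congr rfl h1, Finset.sum_const, Finset.card_powersetCard, nsmul_eq_mul]

end es

/-! ### the limits of the binomial coefficients -/

lemma desc_prod (n b : ℕ) : (n.descFactorial b : ℝ) = ∏ i ∈ range b, ((n : ℝ) - i) := by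
  induction b with
  | zero => simp
  | succ b ih =>
    rw [Finset.prod_range_succ, ← ih, Nat.descFactorial_succ]
    rcases le_or_gt b n with h | h
    · rw [Nat.cast_mul, Nat.cast_sub h]
      ring
    · rw [Nat.descFactorial_of_lt h]
      simp

lemma choose_eq (n b : ℕ) : (n.choose b : ℝ) = (n.descFactorial b : ℝ) / b.factorial := by
  rw [Nat.descFactorial_eq_factorial_mul_choose]
  push_cast
  have : (b.factorial : ℝ) ≠ 0 := by exact_mod_cast b.factorial_ne_zero
  field_simp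

lemma lim_choose {Z : Type} {F : Filter Z} {n : Z → ℕ} {q : Z → ℝ} {ν : ℝ}
    (h1 : Tendsto (fun z => (n z : ℝ) * q z) F (𝓝 ν)) (h2 : Tendsto q F (𝓝 0)) (b : ℕ) :
    Tendsto (fun z => ((n z).choose b : ℝ) * q z ^ b) F (𝓝 (ν ^ b / b.factorial)) := by
  have e : (fun z => ((n z).choose b : ℝ) * q z ^ b) =
      fun z => (∏ i ∈ range b, ((n z : ℝ) * q z - i * q z)) / b.factorial := by
    funext z
    rw [choose_eq, desc_prod]
    have : ∏ i ∈ range b, ((n z : ℝ) * q z - i * q z) = (∏ i ∈ range b, ((n z : ℝ) - i)) * q z ^ b := by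
      have h3 : q z ^ b = ∏ _i ∈ range b, q z := by rw [Finset.prod_const, Finset.card_range]
      rw [h3, ← Finset.prod_mul_distrib]
      exact Finset.prod_congr rfl fun i _ => by ring
    rw [this]
    ring
  rw [e]
  apply Tendsto.div_const
  have h3 : ν ^ b = ∏ i ∈ range b, (ν - (i : ℝ) * 0) := by
    simp
  rw [h3]
  exact tendsto_finsetProd _ fun i _ => h1.sub (tendsto_const_nhds.mul h2)

/-! ### the limit -/

/-- the filter `d → ∞`, `d ^ 2 / N → μ` -/
noncomputable def Fl (μ : ℝ) : Filter (ℕ × ℕ) :=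
  Filter.comap (fun z : ℕ × ℕ => ((z.1 : ℝ), (z.1 : ℝ) ^ 2 / (z.2 : ℝ))) (atTop ×ˢ 𝓝 μ)

noncomputable def pr (z : ℕ × ℕ) : ℝ := (z.1 : ℝ) / (z.2 : ℝ)

lemma Fl_d (μ : ℝ) : Tendsto (fun z : ℕ × ℕ => (z.1 : ℝ)) (Fl μ) atTop :=
  tendsto_fst.comp tendsto_comap

lemma Fl_m (μ : ℝ) : Tendsto (fun z : ℕ × ℕ => (z.1 : ℝ) ^ 2 / (z.2 : ℝ)) (Fl μ) (𝓝 μ) :=
  tendsto_snd.comp tendsto_comap

lemma Fl_p (μ : ℝ) : Tendsto pr (Fl μ) (𝓝 0) := by
  have h := (Fl_m μ).div_atTop (Fl_d μ)
  refine h.congr' ?_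
  filter_upwards [(Fl_d μ).eventually_gt_atTop 0] with z hz
  unfold pr
  field_simp

lemma Fl_dp (μ : ℝ) : Tendsto (fun z : ℕ × ℕ => (z.1 : ℝ) * pr z) (Fl μ) (𝓝 μ) := by
  refine (Fl_m μ).congr fun z => ?_
  unfold pr
  ring

lemma Fl_np (μ : ℝ) : Tendsto (fun z : ℕ × ℕ => (z.2 : ℝ) * pr z ^ 2) (Fl μ) (𝓝 μ) := by
  refine (Fl_m μ).congr fun z => ?_
  unfold pr
  rcases eq_or_ne (z.2 : ℝ) 0 with h | h
  · rw [h]; simp
  · field_simp

/-- the number of points of the symmetric difference -/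
def nB (X : ℕ) (z : ℕ × ℕ) : ℕ := 2 * (z.1 - X)

/-- the number of the other points -/
def nC (X : ℕ) (z : ℕ × ℕ) : ℕ := z.2 + X - 2 * z.1

lemma lim_B (μ : ℝ) (X b : ℕ) :
    Tendsto (fun z => ((nB X z).choose b : ℝ) * (-(pr z * (1 - pr z))) ^ b) (Fl μ)
      (𝓝 ((-(2 * μ)) ^ b / b.factorial)) := by
  have hp := Fl_p μ
  apply lim_choose
  · have h1 : Tendsto (fun z : ℕ × ℕ => -((2 * ((z.1 : ℝ) * pr z) - 2 * X * pr z) * (1 - pr z))) (Fl μ)
        (𝓝 (-((2 * μ - 2 * X * 0) * (1 - 0)))) :=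
      (((tendsto_const_nhds.mul (Fl_dp μ)).sub (tendsto_const_nhds.mul hp)).mul
        (tendsto_const_nhds.sub hp)).neg
    have h2 : -((2 * μ - 2 * X * 0) * (1 - 0)) = -(2 * μ) := by ring
    rw [h2] at h1
    refine h1.congr' ?_
    filter_upwards [(Fl_d μ).eventually_ge_atTop (X : ℝ)] with z hz
    have hz' : X ≤ z.1 := by exact_mod_cast hz
    have : ((nB X z : ℕ) : ℝ) = 2 * ((z.1 : ℝ) - X) := by
      unfold nB
      rw [Nat.cast_mul, Nat.cast_sub hz']
      push_cast
      ring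
    rw [this]
    ring
  · have h1 : Tendsto (fun z : ℕ × ℕ => -(pr z * (1 - pr z))) (Fl μ) (𝓝 (-(0 * (1 - 0)))) :=
      (hp.mul (tendsto_const_nhds.sub hp)).neg
    simpa using h1

lemma lim_C (μ : ℝ) (X c : ℕ) :
    Tendsto (fun z => ((nC X z).choose c : ℝ) * (pr z ^ 2) ^ c) (Fl μ)
      (𝓝 (μ ^ c / c.factorial)) := by
  have hp := Fl_p μ
  apply lim_choose
  · have h1 : Tendsto (fun z : ℕ × ℕ => (z.2 : ℝ) * pr z ^ 2 + X * pr z ^ 2 - 2 * ((z.1 : ℝ) * pr z) * pr z)
        (Fl μ) (𝓝 (μ + X * 0 ^ 2 - 2 * μ * 0)) :=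
      ((Fl_np μ).add (tendsto_const_nhds.mul (hp.pow 2))).sub
        ((tendsto_const_nhds.mul (Fl_dp μ)).mul hp)
    have h2 : μ + X * 0 ^ 2 - 2 * μ * 0 = μ := by ring
    rw [h2] at h1
    refine h1.congr' ?_
    filter_upwards [(Fl_d μ).eventually_gt_atTop 0, hp.eventually_le_const (show (0 : ℝ) < 1 / 2 by norm_num),
      (Fl_m μ).eventually (eventually_of_mem univ_mem fun _ _ => trivial)] with z hd hz _
    by_cases hN : z.2 = 0
    · -- `N = 0`: `pr z = 0`
      have : pr z = 0 := by unfold pr; rw [hN]; simp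
      rw [this]
      simp
    · have hN' : (0 : ℝ) < z.2 := by exact_mod_cast Nat.pos_of_ne_zero hN
      have h3 : 2 * z.1 ≤ z.2 := by
        unfold pr at hz
        rw [div_le_iff₀ hN'] at hz
        have : 2 * (z.1 : ℝ) ≤ z.2 := by linarith
        exact_mod_cast this
      have : ((nC X z : ℕ) : ℝ) = (z.2 : ℝ) + X - 2 * z.1 := by
        unfold nC
        rw [Nat.cast_sub (by omega)]
        push_cast
        ring
      rw [this]
      ring
  · simpa using hp.pow 2

/-- the elementary symmetric sum in terms of `X`, `d`, `|S|` -/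
noncomputable def GG (X j : ℕ) (z : ℕ × ℕ) : ℝ :=
  ∑ m ∈ antidiagonal j, ((X.choose m.1 : ℝ) * ((1 - pr z) ^ 2) ^ m.1) *
    ∑ l ∈ antidiagonal m.2, (((nB X z).choose l.1 : ℝ) * (-(pr z * (1 - pr z))) ^ l.1) *
      (((nC X z).choose l.2 : ℝ) * (pr z ^ 2) ^ l.2)

lemma exp_id (x y : ℝ) (n : ℕ) :
    ∑ l ∈ antidiagonal n, (x ^ l.1 / l.1.factorial) * (y ^ l.2 / l.2.factorial) =
      (x + y) ^ n / n.factorial := by
  rw [(Commute.all x y).add_pow', Finset.sum_div]
  apply Finset.sum_congr rfl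
  intro l hl
  rw [Finset.HasAntidiagonal.mem_antidiagonal] at hl
  have h1 : (n.choose l.1 : ℝ) = n.factorial / (l.1.factorial * l.2.factorial) := by
    rw [← hl, Nat.choose_eq_factorial_div_factorial (Nat.le_add_right _ _), Nat.add_sub_cancel_left,
      Nat.cast_div (Nat.factorial_mul_factorial_dvd_factorial_add _ _)]
    · push_cast
      rfl
    · exact_mod_cast Nat.mul_ne_zero (Nat.factorial_ne_zero _) (Nat.factorial_ne_zero _)
  rw [nsmul_eq_mul, h1]
  have a1 : (n.factorial : ℝ) ≠ 0 := by exact_mod_cast n.factorial_ne_zero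
  have a2 : (l.1.factorial : ℝ) ≠ 0 := by exact_mod_cast l.1.factorial_ne_zero
  have a3 : (l.2.factorial : ℝ) ≠ 0 := by exact_mod_cast l.2.factorial_ne_zero
  field_simp

lemma ch_eq (μ : ℝ) (j X : ℕ) : ch μ j X = (j.factorial : ℝ) *
    ∑ m ∈ antidiagonal j, (X.choose m.1 : ℝ) * ((-μ) ^ m.2 / m.2.factorial) := by
  unfold ch
  rw [Finset.Nat.sum_antidiagonal_eq_sum_range_succ
    (fun a n => (X.choose a : ℝ) * ((-μ) ^ n / n.factorial)) j, Finset.mul_sum]
  apply Finset.sum_congr rfl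
  intro i hi
  have hij : i ≤ j := Nat.lt_succ_iff.mp (Finset.mem_range.mp hi)
  rw [Nat.descFactorial_eq_factorial_mul_choose]
  have h1 : (j.choose i : ℝ) = j.factorial / (i.factorial * (j - i).factorial) := by
    rw [Nat.choose_eq_factorial_div_factorial hij, Nat.cast_div (Nat.factorial_mul_factorial_dvd_factorial hij)]
    · push_cast
      rfl
    · exact_mod_cast Nat.mul_ne_zero (Nat.factorial_ne_zero _) (Nat.factorial_ne_zero _)
  rw [h1]
  have a1 : (i.factorial : ℝ) ≠ 0 := by exact_mod_cast i.factorial_ne_zero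
  have a3 : ((j - i).factorial : ℝ) ≠ 0 := by exact_mod_cast (j - i).factorial_ne_zero
  have h2 : (-μ) ^ (j - i) = (-1) ^ (j - i) * μ ^ (j - i) := by rw [← mul_pow]; ring
  rw [h2]
  push_cast
  field_simp

lemma lim_GG (μ : ℝ) (X j : ℕ) :
    Tendsto (fun z => (j.factorial : ℝ) * GG X j z) (Fl μ) (𝓝 (ch μ j X)) := by
  rw [ch_eq]
  apply Tendsto.const_mul
  unfold GG
  apply tendsto_finsetSum
  intro m _
  have h1 : Tendsto (fun z : ℕ × ℕ => (X.choose m.1 : ℝ) * ((1 - pr z) ^ 2) ^ m.1) (Fl μ)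
      (𝓝 ((X.choose m.1 : ℝ) * ((1 - 0) ^ 2) ^ m.1)) :=
    tendsto_const_nhds.mul (((tendsto_const_nhds.sub (Fl_p μ)).pow 2).pow m.1)
  have h2 : (X.choose m.1 : ℝ) * ((1 - 0) ^ 2) ^ m.1 = (X.choose m.1 : ℝ) := by simp
  rw [h2] at h1
  refine h1.mul ?_
  have h3 : (-μ) ^ m.2 / (m.2.factorial : ℝ) =
      ∑ l ∈ antidiagonal m.2, ((-(2 * μ)) ^ l.1 / l.1.factorial) * (μ ^ l.2 / l.2.factorial) := by
    rw [exp_id]
    congr 2
    ring
  rw [h3]
  exact tendsto_finsetSum _ fun l _ => (lim_B μ X l.1).mul (lim_C μ X l.2)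

/-- the identity -/
lemma es_eq {β : Type} (S T T' : Finset β) (d : ℕ) [DecidableEq β] (hT : T ⊆ S) (hT' : T' ⊆ S) (hd : T.card = d)
    (hd' : T'.card = d) (j : ℕ) : es j S (ww S T T') = GG (T ∩ T').card j (d, S.card) := by
  have hww : ∀ y, ww S T T' y = ((if y ∈ T then (1 : ℝ) else 0) - pr (d, S.card)) *
      ((if y ∈ T' then (1 : ℝ) else 0) - pr (d, S.card)) := by
    intro y
    unfold ww pr
    rw [hd, hd']
    congr 3
  set A := T ∩ T' with hA
  set B := (T \ T') ∪ (T' \ T) with hB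
  set C := S \ (T ∪ T') with hC
  have hBC : Disjoint B C := by
    rw [Finset.disjoint_left]
    intro y hy hy'
    simp only [hB, hC, Finset.mem_union, Finset.mem_sdiff] at hy hy'
    tauto
  have hABC : Disjoint A (B ∪ C) := by
    rw [Finset.disjoint_left]
    intro y hy hy'
    simp only [hA, hB, hC, Finset.mem_union, Finset.mem_sdiff, Finset.mem_inter] at hy hy'
    tauto
  have hSu : S = A ∪ (B ∪ C) := by
    ext y
    simp only [hA, hB, hC, Finset.mem_union, Finset.mem_sdiff, Finset.mem_inter]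
    constructor
    · intro h; tauto
    · rintro (⟨h, -⟩ | (⟨h, -⟩ | ⟨h, -⟩) | ⟨h, -⟩)
      · exact hT h
      · exact hT h
      · exact hT' h
      · exact h
  have hcA : A.card ≤ d := by rw [← hd]; exact Finset.card_le_card Finset.inter_subset_left
  have hcB : B.card = nB A.card (d, S.card) := by
    unfold nB
    have h1 : Disjoint (T \ T') (T' \ T) := by
      rw [Finset.disjoint_left]
      intro y hy hy'
      simp only [Finset.mem_sdiff] at hy hy'
      tauto
    rw [hB, Finset.card_union_of_disjoint h1, Finset.card_sdiff, Finset.card_sdiff, hd, hd', ← hA,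
      Finset.inter_comm T' T, ← hA]
    show d - A.card + (d - A.card) = 2 * (d - A.card)
    omega
  have hcC : C.card = nC A.card (d, S.card) := by
    have h1 : (T ∪ T').card + A.card = 2 * d := by
      rw [hA, Finset.card_union_add_card_inter, hd, hd']
      omega
    have h2 : (T ∪ T') ⊆ S := Finset.union_subset hT hT'
    have h3 : C.card + (T ∪ T').card = S.card := by
      rw [hC]
      exact Finset.card_sdiff_add_card_eq_card h2
    unfold nC
    show C.card = S.card + A.card - 2 * d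
    omega
  have hsum : es j S (ww S T T') = es j (A ∪ (B ∪ C)) (ww S T T') := by rw [← hSu]
  rw [hsum, es_union A (B ∪ C) hABC]
  unfold GG
  apply Finset.sum_congr rfl
  intro m _
  rw [es_union B C hBC]
  congr 1
  · apply es_const
    intro y hy
    rw [hA, Finset.mem_inter] at hy
    rw [hww, if_pos hy.1, if_pos hy.2]
    ring
  · apply Finset.sum_congr rfl
    intro l _
    congr 1
    · rw [← hcB]
      apply es_const
      intro y hy
      rw [hww]
      simp only [hB, Finset.mem_union, Finset.mem_sdiff] at hy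
      rcases hy with ⟨h1, h2⟩ | ⟨h1, h2⟩
      · rw [if_pos h1, if_neg h2]; ring
      · rw [if_neg h2, if_pos h1]; ring
    · rw [← hcC]
      apply es_const
      intro y hy
      rw [hww]
      simp only [hC, Finset.mem_union, Finset.mem_sdiff, not_or] at hy
      rw [if_neg hy.2.1, if_neg hy.2.2]
      ring

theorem lim : StmLim := by
  classical
  intro k M μ δ _ hδ
  have hev : ∀ᶠ z in Fl μ, ∀ j ∈ range (k + 1), ∀ X ∈ range (M + 1),
      |(j.factorial : ℝ) * GG X j z - ch μ j X| ≤ δ := by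
    rw [Filter.eventually_all_finset]
    intro j _
    rw [Filter.eventually_all_finset]
    intro X _
    have h := Metric.tendsto_nhds.mp (lim_GG μ X j) δ hδ
    filter_upwards [h] with z hz
    rw [Real.dist_eq] at hz
    exact hz.le
  unfold Fl at hev
  rw [Filter.eventually_comap, Filter.eventually_prod_iff] at hev
  obtain ⟨pa, hpa, pb, hpb, hP⟩ := hev
  obtain ⟨D0, hD0⟩ := Filter.eventually_atTop.mp hpa
  obtain ⟨ε0, hε0, hE⟩ := Metric.eventually_nhds_iff.mp hpb
  refine ⟨max D0 (2 / ε0), lt_of_lt_of_le (by positivity) (le_max_right _ _), ?_⟩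
  intro β S T T' d hT hT' hd hd' hM hK hμ j hj
  have hKpos : 0 < max D0 (2 / ε0) := lt_of_lt_of_le (by positivity) (le_max_right _ _)
  have h1 : pa (d : ℝ) := hD0 _ ((le_max_left _ _).trans hK)
  have h2 : pb ((d : ℝ) ^ 2 / S.card) := by
    apply hE
    rw [Real.dist_eq]
    have h3 : 1 / max D0 (2 / ε0) ≤ 1 / (2 / ε0) :=
      one_div_le_one_div_of_le (by positivity) (le_max_right _ _)
    have h4 : 1 / (2 / ε0) = ε0 / 2 := by field_simp
    rw [h4] at h3
    linarith
  have h5 := hP h1 h2 (d, S.card) rfl j (Finset.mem_range.mpr (by omega)) (T ∩ T').card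
    (Finset.mem_range.mpr (by
      have : (T ∩ T').card ≤ M := by convert hM
      omega))
  rw [← es_eq S T T' d hT hT' hd hd' j] at h5
  convert h5

end Pool.Agent.N49.ZK
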